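import Mathlib

set_option autoImplicit false

namespace Pool.Agent.Results.MP_d643ae_pr.Periodic

open MeasureTheory Real Finset

/-- probability density on the line -/
def IsDensity (f : ℝ → ℝ) : Prop := (∀ x, 0 ≤ f x) ∧ Integrable f ∧ ∫ x, f x = 1

/-- the normal density -/
noncomputable def normal (a σ x : ℝ) : ℝ := (√(2 * π * σ ^ 2))⁻¹ * exp (-(x - a) ^ 2 / (2 * σ ^ 2))

lemma norm {f : ℝ → ℝ} (h0 : ∀ x, 0 < f x) (hf : Integrable f) :
    ∃ C, 0 < C ∧ IsDensity fun x => C * f x := by
  have : 0 < ∫ x, f x := (integral_pos_iff_support_of_nonneg (fun x => (h0 x).le) hf).2 (by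
    rw [Set.eq_univ_of_forall (s := Function.support f) fun x => (h0 x).ne']; simp)
  exact ⟨_, inv_pos.2 this, fun x => (mul_pos (inv_pos.2 this) (h0 x)).le, hf.const_mul _,
    by rw [integral_const_mul, inv_mul_cancel₀ this.ne']⟩

lemma sh (u : ℝ) (hu : u ≠ 0) : 0 < sinh u / u ∧ sinh u / u ≤ exp |u| := by
  wlog h : 0 < u
  · simpa using this (-u) (neg_ne_zero.2 hu) (neg_pos.2 ((not_lt.1 h).lt_of_ne hu))
  refine ⟨div_pos (sinh_pos_iff.2 h) h, ?_⟩
  rw [div_le_iff₀ h, abs_of_pos h, sinh_eq, show exp (-u) = exp u * exp (-2 * u) by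
    rw [← exp_add]; ring_nf]
  nlinarith [add_one_le_exp (-2 * u), exp_pos u]

theorem result (n : ℕ) : ∃ (f g : ℝ → ℝ) (c : ℝ), IsDensity f ∧ IsDensity g ∧ (∀ x, 0 < g x) ∧
    (∀ x : Fin n → ℝ, ∑ j, x j = 0 →
      Integrable (fun u => (u - c) * g u * ∏ j, f (x j - u)) ∧
      ∫ u, (u - c) * g u * ∏ j, f (x j - u) = 0) ∧
    ¬ ∃ a σ : ℝ, 0 < σ ∧ f =ᵐ[volume] normal a σ := by
  set s : ℝ := n + 1 with hs
  have s0 : 0 < s := by positivity
  let P := fun x : ℝ => 2 + cos (2 * π * s * x)
  have hP : ∀ x, 1 ≤ P x ∧ P x ≤ 3 := fun x =>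
    ⟨by have := neg_one_le_cos (2 * π * s * x); simp only [P]; linarith,
      by have := cos_le_one (2 * π * s * x); simp only [P]; linarith⟩
  have hPc : Continuous P := by fun_prop
  obtain ⟨C, hC, hf⟩ := norm (f := fun x => P x * exp (-1 * x ^ 2))
    (fun x => mul_pos (by linarith [hP x]) (exp_pos _))
    ((integrable_exp_neg_mul_sq one_pos).bdd_mul (c := 3) hPc.aestronglyMeasurable
      (.of_forall fun x => by rw [Real.norm_of_nonneg (by linarith [hP x])]; exact (hP x).2))
  let g := fun u : ℝ => if u = 0 then 1 else exp (-u ^ 2) * (sinh u / u)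
  have hg : ∀ u, 0 < g u := fun u => by
    simp only [g]; split_ifs with h
    exacts [one_pos, mul_pos (exp_pos _) (sh u h).1]
  obtain ⟨D, hD, hg'⟩ := norm hg (by
    refine ((integrable_exp_neg_mul_sq (b := 1 / 2) (by norm_num)).const_mul (exp 1)).mono'
      (Measurable.ite (measurableSet_singleton 0) (by fun_prop) (by fun_prop)).aestronglyMeasurable
      (.of_forall fun u => ?_)
    rw [Real.norm_of_nonneg (hg u).le, ← exp_add]
    simp only [g]; split_ifs with h
    · simp [h]
    · refine (mul_le_mul_of_nonneg_left (sh u h).2 (exp_pos _).le).trans ?_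
      rw [← exp_add, exp_le_exp, ← sq_abs u]
      nlinarith [sq_nonneg (|u| - 1)])
  refine ⟨_, _, 0, hf, hg', fun x => mul_pos hD (hg x), fun x hx => ?_, ?_⟩
  · let Q := fun u => ∏ j, P (x j - u)
    have hQ : ∀ t, Integrable fun u => Q u * exp (-s * (u + t) ^ 2) := fun t =>
      ((integrable_exp_neg_mul_sq s0).comp_add_right t).bdd_mul (c := 3 ^ n)
        (by fun_prop : Continuous Q).aestronglyMeasurable (.of_forall fun u => by
          rw [Real.norm_of_nonneg (prod_nonneg fun j _ => by linarith [hP (x j - u)])]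
          simpa using prod_le_prod (s := univ) (g := fun _ => (3 : ℝ))
            (fun j _ => by linarith [hP (x j - u)]) fun j _ => (hP (x j - u)).2)
    have e : (fun u => (u - 0) * (D * g u) * ∏ j, C * (P (x j - u) * exp (-1 * (x j - u) ^ 2))) =
        fun u => (D * C ^ n * exp (1 / (4 * s) - ∑ j, x j ^ 2) / 2) *
          (Q u * exp (-s * (u + -(1 / (2 * s))) ^ 2) - Q u * exp (-s * (u + 1 / (2 * s)) ^ 2)) := by
      ext u
      have e1 : u * g u = exp (-u ^ 2) * sinh u := by
        simp only [g]; split_ifs with h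
        · simp [h]
        · field_simp
      have e2 : ∑ j, -1 * (x j - u) ^ 2 = -∑ j, x j ^ 2 - n * u ^ 2 := by
        simp only [sub_sq, neg_one_mul, sum_neg_distrib, sum_add_distrib, sum_sub_distrib,
          ← sum_mul, ← mul_sum, hx]
        simp; ring
      have e3 : ∀ t, exp (1 / (4 * s) - ∑ j, x j ^ 2) * exp (-s * (u + -t / (2 * s)) ^ 2) =
          exp (-u ^ 2) * exp (-∑ j, x j ^ 2 - n * u ^ 2) * exp (t * u + (1 - t ^ 2) / (4 * s)) :=
        fun t => by
          simp only [← exp_add]; congr 1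
          rw [show (n : ℝ) = s - 1 by linarith]; field_simp; ring
      have e4 := e3 1
      have e5 := e3 (-1)
      rw [prod_mul_distrib, prod_mul_distrib, ← exp_sum, e2, prod_const, card_univ,
        Fintype.card_fin, sub_zero, mul_left_comm u, e1, sinh_eq]
      simp only [neg_neg, one_mul, neg_div, one_pow, sub_self, zero_div, add_zero, neg_mul,
        even_two, Even.neg_pow] at e4 e5 ⊢
      linear_combination (-D * C ^ n * Q u / 2) * e4 + (D * C ^ n * Q u / 2) * e5
    rw [e]
    refine ⟨((hQ _).sub (hQ _)).const_mul _, ?_⟩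
    rw [integral_const_mul, integral_sub (hQ _) (hQ _), ← integral_add_right_eq_self _ (1 / s)]
    refine mul_eq_zero_of_right _ (sub_eq_zero.2 ?_)
    congr 1; ext u
    rw [show u + 1 / s + -(1 / (2 * s)) = u + 1 / (2 * s) by field_simp; ring]
    congr 1
    refine prod_congr rfl fun j _ => ?_
    simp only [P]
    rw [← cos_add_two_pi]; congr 2; field_simp; ring
  · rintro ⟨a, σ, hσ, h⟩
    have h := (Continuous.ae_eq_iff_eq _ (by fun_prop) (by unfold normal; fun_prop)).1 h
    have key : ∀ x t, normal a σ (x - t) * normal a σ (x + t) =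
        normal a σ x ^ 2 * exp (-t ^ 2 / σ ^ 2) := fun x t => by
      unfold normal
      rw [mul_mul_mul_comm, mul_pow (_ : ℝ)⁻¹, ← exp_nat_mul, mul_assoc (_ ^ 2), ← exp_add,
        ← exp_add, ← sq]
      congr 2; field_simp; ring
    have k2 : ∀ x t, P (x - t) * P (x + t) * exp (-2 * t ^ 2) = P x ^ 2 * exp (-t ^ 2 / σ ^ 2) :=
      fun x t => by
        have := key x t
        rw [← h] at this
        have e : exp (-1 * (x - t) ^ 2) * exp (-1 * (x + t) ^ 2) =
            exp (-1 * x ^ 2) ^ 2 * exp (-2 * t ^ 2) := by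
          rw [← exp_nat_mul, ← exp_add, ← exp_add]; congr 1; push_cast; ring
        refine mul_left_cancel₀ (a := C ^ 2 * exp (-1 * x ^ 2) ^ 2) (by positivity) ?_
        linear_combination this - C ^ 2 * P (x - t) * P (x + t) * e
    have a1 := k2 0 (1 / (2 * s))
    have a2 := k2 (1 / (2 * s)) (1 / (2 * s))
    have p1 : 2 * π * s * (1 / (2 * s)) = π := by field_simp
    simp only [P, zero_sub, zero_add, sub_self, mul_add, mul_neg, p1, mul_zero, cos_zero, cos_neg,
      cos_pi, cos_add, sin_pi] at a1 a2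
    nlinarith [exp_pos (-2 * (1 / (2 * s)) ^ 2)]

end Pool.Agent.Results.MP_d643ae_pr.Periodic
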